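import Pool.Agent.Run7.h432.LV.Stm2

/-!
# Piece LOC of the project LV: localisation of a ring at a central integer
-/

set_option autoImplicit false

namespace Run7.h192.LV

open Run7.h432.LV

universe u

/-- The ring homomorphism `a ↦ a / 1`. -/
noncomputable def toLoc (S : Submonoid ℤ) (A : Type u) [Ring A] : A →+* LocalizedModule S A where
  toFun a := LocalizedModule.mk a 1
  map_one' := by rw [OreLocalization.one_def]
  map_mul' a b := by rw [LocalizedModule.mk_mul_mk, one_mul]
  map_zero' := LocalizedModule.zero_mk 1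
  map_add' a b := by rw [LocalizedModule.mk_add_mk, one_smul, one_smul, one_mul]

theorem toLoc_apply (S : Submonoid ℤ) {A : Type u} [Ring A] (a : A) :
    toLoc S A a = LocalizedModule.mk a 1 := rfl

theorem t_LOC : S_LOC.{u} := by
  intro U₀ _ N
  have hN : ∀ k : ℕ, ((N : ℤ) : LocalizedModule (Submonoid.powers N) U₀) ^ k =
      LocalizedModule.mk (((N : ℤ) : U₀) ^ k) 1 := by
    intro k
    rw [← toLoc_apply, map_pow, map_intCast]
  refine ⟨LocalizedModule (Submonoid.powers N) U₀, inferInstance, toLoc _ U₀, ?_, ?_, ?_⟩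
  · have h0 := hN 1
    rw [pow_one, pow_one] at h0
    rw [h0]
    have h1 : (LocalizedModule.mk ((N : ℤ) : U₀) 1 : LocalizedModule (Submonoid.powers N) U₀) *
        LocalizedModule.mk (1 : U₀) ⟨N, Submonoid.mem_powers N⟩ = 1 := by
      rw [LocalizedModule.mk_mul_mk, mul_one, one_mul, ← map_one (toLoc (Submonoid.powers N) U₀),
        toLoc_apply, LocalizedModule.mk_eq]
      exact ⟨1, by simp [Submonoid.smul_def]⟩
    have h2 : LocalizedModule.mk (1 : U₀) ⟨N, Submonoid.mem_powers N⟩ *
        (LocalizedModule.mk ((N : ℤ) : U₀) 1 : LocalizedModule (Submonoid.powers N) U₀) = 1 := by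
      rw [LocalizedModule.mk_mul_mk, mul_one, one_mul, ← map_one (toLoc (Submonoid.powers N) U₀),
        toLoc_apply, LocalizedModule.mk_eq]
      exact ⟨1, by simp [Submonoid.smul_def]⟩
    exact ⟨⟨_, _, h1, h2⟩, rfl⟩
  · intro c
    induction c using LocalizedModule.induction_on with
    | h m s =>
      obtain ⟨s, k, hk⟩ := s
      refine ⟨k, m, ?_⟩
      rw [hN, LocalizedModule.mk_mul_mk, one_mul, toLoc_apply, LocalizedModule.mk_eq]
      refine ⟨1, ?_⟩
      simp only at hk
      simp [Submonoid.smul_def, ← hk]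
  · intro c₀ h
    rw [toLoc_apply, ← LocalizedModule.zero_mk 1, LocalizedModule.mk_eq] at h
    obtain ⟨⟨s, k, hk⟩, h⟩ := h
    refine ⟨k, ?_⟩
    simp only at hk
    simpa [Submonoid.smul_def, ← hk] using h

end Run7.h192.LV
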